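import Pool.Agent.Helper79.ZC.Stmts

/-!
BIJ: partitions of `n` correspond to bead sets with `M ≥ n` beads.
-/

set_option autoImplicit false

namespace Pool.Agent.Helper79.ZC

open scoped Classical

/-- the sorted list of parts -/
noncomputable def bij_L {n : ℕ} (l : n.Partition) : List ℕ := l.parts.sort (fun a b => b ≤ a)

lemma bij_row {n : ℕ} (l : n.Partition) (i : ℕ) : row l i = (bij_L l).getD i 0 := rfl

lemma bij_pw {n : ℕ} (l : n.Partition) : (bij_L l).Pairwise (fun a b => b ≤ a) :=
  Multiset.pairwise_sort _ _

lemma bij_coe {n : ℕ} (l : n.Partition) : ((bij_L l : List ℕ) : Multiset ℕ) = l.parts :=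
  Multiset.sort_eq _ _

lemma bij_anti_list (L : List ℕ) (hL : L.Pairwise (fun a b => b ≤ a)) (i j : ℕ) (hij : i ≤ j) :
    L.getD j 0 ≤ L.getD i 0 := by
  rcases Nat.eq_or_lt_of_le hij with h | h
  · rw [h]
  · by_cases hj : j < L.length
    · rw [List.getD_eq_getElem _ _ hj, List.getD_eq_getElem _ _ (h.trans hj)]
      exact List.pairwise_iff_getElem.1 hL i j (h.trans hj) hj h
    · rw [List.getD_eq_default _ _ (not_lt.1 hj)]
      exact Nat.zero_le _

lemma bij_anti {n : ℕ} (l : n.Partition) (i j : ℕ) (hij : i ≤ j) : row l j ≤ row l i :=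
  bij_anti_list _ (bij_pw l) i j hij

lemma bij_sum_list (L : List ℕ) : ∀ M : ℕ, L.length ≤ M →
    ∑ i ∈ Finset.range M, L.getD i 0 = L.sum := by
  induction L with
  | nil => intro M _; simp
  | cons a t ih =>
    intro M hM
    obtain ⟨M', rfl⟩ : ∃ M', M = M' + 1 := ⟨M - 1, by simp at hM; omega⟩
    rw [Finset.sum_range_succ', List.sum_cons]
    simp only [List.getD_cons_succ, List.getD_cons_zero]
    rw [ih M' (by simpa using hM)]
    ring

lemma bij_len {n : ℕ} (l : n.Partition) : (bij_L l).length ≤ n := by
  have h1 : (bij_L l).length = Multiset.card l.parts := by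
    rw [← bij_coe l, Multiset.coe_card]
  have h2 := Multiset.card_nsmul_le_sum (s := l.parts) (a := 1) (fun x hx => l.parts_pos hx)
  rw [l.parts_sum, smul_eq_mul, mul_one] at h2
  rw [h1]; exact h2

lemma bij_sum {n : ℕ} (l : n.Partition) (M : ℕ) (hM : n ≤ M) :
    ∑ i ∈ Finset.range M, row l i = n := by
  have h := bij_sum_list (bij_L l) M ((bij_len l).trans hM)
  have h2 : (bij_L l).sum = n := by
    have := l.parts_sum
    rw [← bij_coe l, Multiset.sum_coe] at this
    exact this
  rw [h2] at h
  exact h

lemma bij_zero {n : ℕ} (l : n.Partition) (i : ℕ) (hi : n ≤ i) : row l i = 0 := by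
  rw [bij_row, List.getD_eq_default _ _ ((bij_len l).trans hi)]

lemma bij_le {n : ℕ} (l : n.Partition) (i : ℕ) : row l i ≤ n := by
  have h := bij_sum l (n + i + 1) (by omega)
  have h2 := Finset.single_le_sum (f := fun i => row l i) (fun _ _ => Nat.zero_le _)
    (Finset.mem_range.2 (show i < n + i + 1 by omega))
  calc row l i ≤ _ := h2
    _ = n := h

lemma bij_strict {n : ℕ} (M : ℕ) (l : n.Partition) (i j : ℕ) (hij : i < j) (hj : j < M) :
    row l j + (M - 1 - j) < row l i + (M - 1 - i) := by
  have := bij_anti l i j hij.le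
  omega

lemma bij_mem {n : ℕ} (M : ℕ) (hM : n ≤ M) (l : n.Partition) : bead M l ∈ bs M n := by
  have hinj : Set.InjOn (fun i => row l i + (M - 1 - i)) (Finset.range M : Set ℕ) := by
    intro i hi j hj hij
    simp only [Finset.coe_range, Set.mem_Iio] at hi hj
    rcases lt_trichotomy i j with h | h | h
    · have := bij_strict M l i j h hj
      simp only at hij
      omega
    · exact h
    · have := bij_strict M l j i h hi
      simp only at hij
      omega
  rw [bs, Finset.mem_filter, Finset.mem_powersetCard]
  refine ⟨⟨?_, ?_⟩, ?_⟩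
  · intro x hx
    rw [bead, Finset.mem_image] at hx
    obtain ⟨i, hi, rfl⟩ := hx
    rw [Finset.mem_range] at hi ⊢
    have := bij_le l i
    omega
  · rw [bead, Finset.card_image_of_injOn hinj, Finset.card_range]
  · rw [bead, Finset.sum_image hinj, Finset.sum_add_distrib, bij_sum l M hM,
      Finset.sum_range_reflect (fun i => i) M]
    ring

/-- equal rows give equal partitions -/
lemma bij_ext_list (L L' : List ℕ) (h : ∀ x ∈ L, 0 < x) (h' : ∀ x ∈ L', 0 < x)
    (he : ∀ i, L.getD i 0 = L'.getD i 0) : L = L' := by
  have key : ∀ (A B : List ℕ), (∀ x ∈ A, 0 < x) → (∀ i, A.getD i 0 = B.getD i 0) →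
      A.length ≤ B.length := by
    intro A B hA hAB
    by_contra hlt
    rw [not_le] at hlt
    have h1 := hAB B.length
    rw [List.getD_eq_default B _ le_rfl, List.getD_eq_getElem A _ hlt] at h1
    have := hA _ (List.getElem_mem hlt)
    omega
  have hlen : L.length = L'.length :=
    le_antisymm (key L L' h he) (key L' L h' (fun i => (he i).symm))
  apply List.ext_getElem hlen
  intro i hi hi'
  have := he i
  rwa [List.getD_eq_getElem _ _ hi, List.getD_eq_getElem _ _ hi'] at this

lemma bij_ext {n : ℕ} (l l' : n.Partition) (h : ∀ i, row l i = row l' i) : l = l' := by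
  apply Nat.Partition.ext
  rw [← bij_coe l, ← bij_coe l']
  congr 1
  apply bij_ext_list
  · intro x hx
    exact l.parts_pos (by rw [← bij_coe l]; exact hx)
  · intro x hx
    exact l'.parts_pos (by rw [← bij_coe l']; exact hx)
  · exact h

lemma bij_inj {n : ℕ} (M : ℕ) (hM : n ≤ M) (l l' : n.Partition) (h : bead M l = bead M l') :
    l = l' := by
  have hcard : (bead M l).card = M := by
    have := bij_mem M hM l
    rw [bs, Finset.mem_filter, Finset.mem_powersetCard] at this
    exact this.1.2
  have hf : ∀ (l0 : n.Partition), bead M l0 = bead M l →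
      (fun i : Fin M => row l0 (M - 1 - i) + (i : ℕ)) = (bead M l).orderEmbOfFin hcard := by
    intro l0 h0
    apply Finset.orderEmbOfFin_unique
    · intro i
      rw [← h0, bead, Finset.mem_image]
      refine ⟨M - 1 - i, ?_, ?_⟩
      · rw [Finset.mem_range]
        have := i.2
        omega
      · have := i.2
        have e : M - 1 - (M - 1 - (i : ℕ)) = i := by omega
        rw [e]
    · intro i j hij
      have hij' : (i : ℕ) < j := hij
      have hj := j.2
      have := bij_anti l0 (M - 1 - j) (M - 1 - i) (by omega)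
      show row l0 (M - 1 - i) + (i : ℕ) < row l0 (M - 1 - j) + (j : ℕ)
      omega
  have h1 := hf l rfl
  have h2 := hf l' h.symm
  apply bij_ext
  intro i
  by_cases hi : i < M
  · have h3 := congrFun (h1.trans h2.symm) ⟨M - 1 - i, by omega⟩
    have e : M - 1 - (M - 1 - i) = i := by omega
    simp only [e] at h3
    omega
  · rw [bij_zero l i (by omega), bij_zero l' i (by omega)]

lemma bij_filter (L : List ℕ) (hL : L.Pairwise (fun a b => b ≤ a)) (i : ℕ) :
    (L.filter (fun x => decide (x ≠ 0))).getD i 0 = L.getD i 0 := by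
  induction L generalizing i with
  | nil => simp
  | cons a t ih =>
    have hL' := List.pairwise_cons.1 hL
    by_cases ha : a = 0
    · subst ha
      have hz : ∀ x ∈ t, x = 0 := fun x hx => Nat.le_zero.1 (hL'.1 x hx)
      have hf : (0 :: t).filter (fun x => decide (x ≠ 0)) = [] := by
        rw [List.filter_eq_nil_iff]
        intro x hx
        rcases List.mem_cons.1 hx with rfl | hx
        · simp
        · simp [hz x hx]
      rw [hf]
      have hz' : ∀ x ∈ (0 :: t), x = 0 := by
        intro x hx
        rcases List.mem_cons.1 hx with rfl | hx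
        · rfl
        · exact hz x hx
      by_cases hi : i < (0 :: t).length
      · rw [List.getD_eq_getElem _ _ hi, hz' _ (List.getElem_mem hi)]
        simp
      · rw [List.getD_eq_default _ _ (not_lt.1 hi)]
        simp
    · rw [List.filter_cons_of_pos (by simp [ha])]
      cases i with
      | zero => simp
      | succ i =>
        rw [List.getD_cons_succ, List.getD_cons_succ]
        exact ih hL'.2 i

lemma bij_surj (M n : ℕ) (X : Finset ℕ) (hX : X ∈ bs M n) : ∃ l : n.Partition, bead M l = X := by
  rw [bs, Finset.mem_filter, Finset.mem_powersetCard] at hX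
  obtain ⟨⟨-, hcard⟩, hsum⟩ := hX
  let e := X.orderEmbOfFin hcard
  have hrange : ∀ x ∈ X, ∃ i : Fin M, e i = x := by
    intro x hx
    have : x ∈ Set.range e := by
      rw [Finset.range_orderEmbOfFin]; exact hx
    exact this
  -- extension of `e` to natural numbers
  let E : ℕ → ℕ := fun i => if h : i < M then e ⟨i, h⟩ else 0
  have hE : ∀ i (h : i < M), E i = e ⟨i, h⟩ := fun i h => by simp [E, h]
  have hEs : ∀ i j, i < j → j < M → E i < E j := by
    intro i j hij hj
    rw [hE i (hij.trans hj), hE j hj]
    exact e.strictMono hij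
  have hEge : ∀ i, i < M → i ≤ E i := by
    intro i
    induction i with
    | zero => intro _; exact Nat.zero_le _
    | succ i ih =>
      intro hi
      have h1 := ih (by omega)
      have h2 := hEs i (i + 1) (by omega) hi
      omega
  have hEm : ∀ i j, i ≤ j → j < M → E i + (j - i) ≤ E j := by
    intro i j hij
    induction j, hij using Nat.le_induction with
    | base => intro _; simp
    | succ j hij ih =>
      intro hj
      have h1 := ih (by omega)
      have h2 := hEs j (j + 1) (by omega) hj
      omega
  have hEsum : ∑ i ∈ Finset.range M, E i = ∑ i ∈ Finset.range M, i + n := by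
    rw [← hsum]
    symm
    refine Finset.sum_bij' (fun x hx => ((hrange x hx).choose : ℕ)) (fun i _ => E i) ?_ ?_ ?_ ?_ ?_
    · intro x hx
      exact Finset.mem_range.2 (hrange x hx).choose.2
    · intro i hi
      rw [hE i (Finset.mem_range.1 hi)]
      exact Finset.orderEmbOfFin_mem _ _ _
    · intro x hx
      rw [hE _ (hrange x hx).choose.2]
      exact (hrange x hx).choose_spec
    · intro i hi
      have hi' := Finset.mem_range.1 hi
      have hmem : E i ∈ X := by
        rw [hE i hi']
        exact Finset.orderEmbOfFin_mem _ _ _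
      have h5 := (hrange (E i) hmem).choose_spec
      have h6 : e ⟨i, hi'⟩ = E i := (hE i hi').symm
      have h7 := e.injective (h5.trans h6.symm)
      exact congrArg Fin.val h7
    · intro x hx
      rw [hE _ (hrange x hx).choose.2]
      exact (hrange x hx).choose_spec.symm
  let f : ℕ → ℕ := fun j => E (M - 1 - j) - (M - 1 - j)
  have hfanti : ∀ i j, i ≤ j → j < M → f j ≤ f i := by
    intro i j hij hj
    have h1 := hEm (M - 1 - j) (M - 1 - i) (by omega) (by omega)
    have h2 := hEge (M - 1 - j) (by omega)
    show E (M - 1 - j) - (M - 1 - j) ≤ E (M - 1 - i) - (M - 1 - i)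
    omega
  have hfsum : ∑ j ∈ Finset.range M, f j = n := by
    have h1 : ∑ j ∈ Finset.range M, f j = ∑ j ∈ Finset.range M, (E j - j) :=
      Finset.sum_range_reflect (fun j => E j - j) M
    have h2 : ∑ j ∈ Finset.range M, (E j - j) + ∑ j ∈ Finset.range M, j =
        ∑ j ∈ Finset.range M, E j := by
      rw [← Finset.sum_add_distrib]
      apply Finset.sum_congr rfl
      intro j hj
      have := hEge j (Finset.mem_range.1 hj)
      omega
    omega
  let L0 : List ℕ := (List.range M).map f
  have hL0 : L0.Pairwise (fun a b => b ≤ a) := by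
    rw [List.pairwise_map]
    have h1 : (List.range M).Pairwise (· < ·) := List.pairwise_lt_range
    have h2 : (List.range M).Pairwise (fun a b => a < b ∧ b < M) := by
      rw [List.pairwise_iff_getElem]
      intro i j hi hj hij
      rw [List.getElem_range, List.getElem_range]
      rw [List.length_range] at hj
      exact ⟨hij, hj⟩
    exact h2.imp (fun {a b} h => hfanti a b h.1.le h.2)
  have hL0sum : (L0 : Multiset ℕ).sum = n := by
    have h1 : (L0 : Multiset ℕ) = Multiset.map f (Finset.range M).val := rfl
    rw [h1]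
    exact hfsum
  let l : n.Partition := Nat.Partition.ofSums n (L0 : Multiset ℕ) hL0sum
  have hparts : bij_L l = L0.filter (fun x => decide (x ≠ 0)) := by
    have hperm : (bij_L l).Perm (L0.filter (fun x => decide (x ≠ 0))) := by
      rw [← Multiset.coe_eq_coe, bij_coe l]
      rfl
    exact List.Perm.eq_of_pairwise' (bij_pw l) (hL0.filter _) hperm
  have hrow : ∀ i, i < M → row l i = f i := by
    intro i hi
    rw [bij_row, hparts, bij_filter L0 hL0 i]
    have hlen : i < L0.length := by simp [L0, hi]
    rw [List.getD_eq_getElem _ _ hlen]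
    simp [L0]
  refine ⟨l, ?_⟩
  ext x
  rw [bead, Finset.mem_image]
  constructor
  · rintro ⟨i, hi, rfl⟩
    rw [Finset.mem_range] at hi
    rw [hrow i hi]
    have h1 := hEge (M - 1 - i) (by omega)
    have h2 : f i + (M - 1 - i) = E (M - 1 - i) := by
      show E (M - 1 - i) - (M - 1 - i) + (M - 1 - i) = _
      omega
    rw [h2, hE _ (by omega)]
    exact Finset.orderEmbOfFin_mem _ _ _
  · intro hx
    obtain ⟨i, hi⟩ := hrange x hx
    have hi2 := i.2
    refine ⟨M - 1 - i, Finset.mem_range.2 (by omega), ?_⟩
    rw [hrow _ (by omega)]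
    have e1 : M - 1 - (M - 1 - (i : ℕ)) = i := by omega
    show E (M - 1 - (M - 1 - (i : ℕ))) - (M - 1 - (M - 1 - (i : ℕ))) + (M - 1 - (M - 1 - (i : ℕ))) = x
    rw [e1]
    have h1 := hEge i hi2
    have h2 : E i = x := by rw [hE i hi2]; exact hi
    omega

theorem st_BIJ : ST_BIJ := by
  intro M n hM
  exact ⟨fun l => bij_mem M hM l, fun l l' h => bij_inj M hM l l' h, fun X hX => bij_surj M n X hX⟩

end Pool.Agent.Helper79.ZC
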