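import Pool.Agent.Helper79.ZC.Stmts

/-!
SUMS: the second and third order sums.
-/

set_option autoImplicit false

namespace Pool.Agent.Helper79.ZC

lemma sums_basic (v : ℝ) (hv : 0 < v) :
    0 < 1 - Real.exp (-v) ∧ v / (1 - Real.exp (-v)) ≤ 1 + v := by
  have h1 : 1 + v ≤ Real.exp v := by
    have := Real.add_one_le_exp v
    linarith
  have h2 : Real.exp (-v) * Real.exp v = 1 := by rw [← Real.exp_add]; simp
  have h3 : 0 < Real.exp (-v) := Real.exp_pos _
  have h4 : Real.exp (-v) * (1 + v) ≤ 1 := by nlinarith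
  have h5 : 0 < 1 - Real.exp (-v) := by nlinarith
  refine ⟨h5, ?_⟩
  rw [div_le_iff₀ h5]
  nlinarith

lemma sums_cube (v : ℝ) (hv : 0 < v) : (1 + v) ^ 3 * Real.exp (-v) ≤ 216 * Real.exp (-(v / 2)) := by
  have h1 : 1 + v / 6 ≤ Real.exp (v / 6) := by
    have := Real.add_one_le_exp (v / 6)
    linarith
  have h2 : (1 + v / 6) ^ 3 ≤ Real.exp (v / 6) ^ 3 :=
    pow_le_pow_left₀ (by positivity) h1 3
  have h3 : Real.exp (v / 6) ^ 3 = Real.exp (v / 2) := by
    rw [← Real.exp_nat_mul]; congr 1; push_cast; ring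
  have h4 : (1 + v) ^ 3 ≤ 216 * Real.exp (v / 2) := by
    have h5 : (1 + v) ^ 3 ≤ (6 * (1 + v / 6)) ^ 3 :=
      pow_le_pow_left₀ (by positivity) (by linarith) 3
    rw [← h3]
    calc (1 + v) ^ 3 ≤ (6 * (1 + v / 6)) ^ 3 := h5
      _ = 216 * (1 + v / 6) ^ 3 := by ring
      _ ≤ _ := by linarith
  have h6 : Real.exp (v / 2) * Real.exp (-v) = Real.exp (-(v / 2)) := by
    rw [← Real.exp_add]; congr 1; ring
  calc (1 + v) ^ 3 * Real.exp (-v) ≤ 216 * Real.exp (v / 2) * Real.exp (-v) :=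
        mul_le_mul_of_nonneg_right h4 (Real.exp_pos _).le
    _ = _ := by rw [mul_assoc, h6]

lemma sums_sq (v : ℝ) (hv : 0 < v) : (1 + v) ^ 2 * Real.exp (-v) ≤ 216 * Real.exp (-(v / 2)) := by
  refine le_trans ?_ (sums_cube v hv)
  apply mul_le_mul_of_nonneg_right _ (Real.exp_pos _).le
  have : (1 : ℝ) ≤ 1 + v := by linarith
  nlinarith [pow_pos (show (0 : ℝ) < 1 + v by linarith) 2]

lemma sums_geom (y : ℝ) (hy : 0 ≤ y) (hy1 : y < 1) (M : ℕ) :
    ∑ k ∈ Finset.Icc 1 M, y ^ k ≤ 1 / (1 - y) := by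
  have h : (∑ k ∈ Finset.Icc 1 M, y ^ k) * (1 - y) = y - y ^ (M + 1) := by
    induction M with
    | zero => simp
    | succ M ih =>
      rw [Finset.sum_Icc_succ_top (by omega), add_mul, ih]
      ring
  rw [le_div_iff₀ (by linarith), h]
  have : 0 ≤ y ^ (M + 1) := by positivity
  linarith

lemma sums_exp (M : ℕ) (a : ℝ) (ha : 0 < a) (ha1 : a ≤ 1) :
    ∑ k ∈ Finset.Icc 1 M, Real.exp (-(a * k / 2)) ≤ 3 / a := by
  have h1 : ∀ k ∈ Finset.Icc 1 M, Real.exp (-(a * k / 2)) = Real.exp (-(a / 2)) ^ k := by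
    intro k _
    rw [← Real.exp_nat_mul]; congr 1; ring
  rw [Finset.sum_congr rfl h1]
  obtain ⟨h2, h3⟩ := sums_basic (a / 2) (by linarith)
  have h4 := sums_geom (Real.exp (-(a / 2))) (Real.exp_pos _).le (by linarith) M
  refine h4.trans ?_
  rw [div_le_div_iff₀ h2 ha]
  rw [div_le_iff₀ h2] at h3
  nlinarith

theorem st_SUMS : ST_SUMS := by
  refine ⟨648, by norm_num, fun M a ha ha1 => ⟨?_, ?_⟩⟩
  · have h1 : ∀ k ∈ Finset.Icc 1 M, (k : ℝ) ^ 2 * Real.exp (-a * k) / (1 - Real.exp (-a * k)) ^ 2 ≤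
        216 / a ^ 2 * Real.exp (-(a * k / 2)) := by
      intro k hk
      rw [Finset.mem_Icc] at hk
      have hk1 : (1 : ℝ) ≤ k := by exact_mod_cast hk.1
      have hv : 0 < a * k := by positivity
      obtain ⟨h2, h3⟩ := sums_basic (a * k) hv
      have h4 := sums_sq (a * k) hv
      rw [show -a * (k : ℝ) = -(a * k) by ring]
      have h5 : (a * k / (1 - Real.exp (-(a * k)))) ^ 2 ≤ (1 + a * k) ^ 2 :=
        pow_le_pow_left₀ (by positivity) h3 2
      have h6 : (k : ℝ) ^ 2 * Real.exp (-(a * k)) / (1 - Real.exp (-(a * k))) ^ 2 =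
          1 / a ^ 2 * ((a * k / (1 - Real.exp (-(a * k)))) ^ 2 * Real.exp (-(a * k))) := by
        field_simp
      rw [h6, div_mul_eq_mul_div, one_mul, div_mul_eq_mul_div]
      apply div_le_div_of_nonneg_right _ (by positivity)
      exact (mul_le_mul_of_nonneg_right h5 (Real.exp_pos _).le).trans h4
    refine (Finset.sum_le_sum h1).trans ?_
    rw [← Finset.mul_sum]
    calc 216 / a ^ 2 * ∑ k ∈ Finset.Icc 1 M, Real.exp (-(a * k / 2)) ≤ 216 / a ^ 2 * (3 / a) :=
          mul_le_mul_of_nonneg_left (sums_exp M a ha ha1) (by positivity)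
      _ = 648 / a ^ 3 := by field_simp; norm_num
  · have h1 : ∀ k ∈ Finset.Icc 1 M, (k : ℝ) ^ 3 * Real.exp (-a * k) / (1 - Real.exp (-a * k)) ^ 3 ≤
        216 / a ^ 3 * Real.exp (-(a * k / 2)) := by
      intro k hk
      rw [Finset.mem_Icc] at hk
      have hk1 : (1 : ℝ) ≤ k := by exact_mod_cast hk.1
      have hv : 0 < a * k := by positivity
      obtain ⟨h2, h3⟩ := sums_basic (a * k) hv
      have h4 := sums_cube (a * k) hv
      rw [show -a * (k : ℝ) = -(a * k) by ring]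
      have h5 : (a * k / (1 - Real.exp (-(a * k)))) ^ 3 ≤ (1 + a * k) ^ 3 :=
        pow_le_pow_left₀ (by positivity) h3 3
      have h6 : (k : ℝ) ^ 3 * Real.exp (-(a * k)) / (1 - Real.exp (-(a * k))) ^ 3 =
          1 / a ^ 3 * ((a * k / (1 - Real.exp (-(a * k)))) ^ 3 * Real.exp (-(a * k))) := by
        field_simp
      rw [h6, div_mul_eq_mul_div, one_mul, div_mul_eq_mul_div]
      apply div_le_div_of_nonneg_right _ (by positivity)
      exact (mul_le_mul_of_nonneg_right h5 (Real.exp_pos _).le).trans h4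
    refine (Finset.sum_le_sum h1).trans ?_
    rw [← Finset.mul_sum]
    calc 216 / a ^ 3 * ∑ k ∈ Finset.Icc 1 M, Real.exp (-(a * k / 2)) ≤ 216 / a ^ 3 * (3 / a) :=
          mul_le_mul_of_nonneg_left (sums_exp M a ha ha1) (by positivity)
      _ = 648 / a ^ 4 := by field_simp; norm_num

end Pool.Agent.Helper79.ZC
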