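import Pool.Agent.Helper79.ZC.Stmts

/-!
ZI: lower bound for the density of the zeros of type I.
-/

set_option autoImplicit false

namespace Pool.Agent.Helper79.ZC

open scoped Classical

/-- the largest part is a part, and it is at least every part -/
lemma zi_row {n : ℕ} (l : n.Partition) (t : ℕ) (ht : t ∈ l.parts) :
    row l 0 ∈ l.parts ∧ t ≤ row l 0 := by
  have hpw : (l.parts.sort (fun a b => b ≤ a)).Pairwise (fun a b => b ≤ a) :=
    Multiset.pairwise_sort _ _
  have hmem : ∀ x, x ∈ l.parts.sort (fun a b => b ≤ a) ↔ x ∈ l.parts := fun x => Multiset.mem_sort _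
  have hrow : row l 0 = (l.parts.sort (fun a b => b ≤ a)).getD 0 0 := rfl
  cases hL : l.parts.sort (fun a b => b ≤ a) with
  | nil =>
    have := (hmem t).2 ht
    rw [hL] at this
    simp at this
  | cons a L =>
    rw [hL] at hrow hpw hmem
    simp only [List.getD_cons_zero] at hrow
    rw [hrow]
    refine ⟨(hmem a).1 (by simp), ?_⟩
    rcases List.mem_cons.1 ((hmem t).2 ht) with h | h
    · rw [h]
    · exact (List.pairwise_cons.1 hpw).1 t h

lemma zi_le {n : ℕ} (l : n.Partition) (t : ℕ) (ht : t ∈ l.parts) : t ≤ n := by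
  have := Multiset.single_le_sum (s := l.parts) (fun _ _ => Nat.zero_le _) t ht
  rwa [l.parts_sum] at this

lemma zi_two {n : ℕ} (l : n.Partition) (s t : ℕ) (hst : s ≠ t) (hs : s ∈ l.parts)
    (ht : t ∈ l.parts) : t + s ≤ n := by
  have h1 : t ∈ l.parts.erase s := (Multiset.mem_erase_of_ne (Ne.symm hst)).2 ht
  have h2 := Multiset.single_le_sum (s := l.parts.erase s) (fun _ _ => Nat.zero_le _) t h1
  have h3 : s + (l.parts.erase s).sum = n := by
    have := congrArg Multiset.sum (Multiset.cons_erase hs)
    rw [Multiset.sum_cons, l.parts_sum] at this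
    exact this
  omega

lemma zi_P (n t : ℕ) (h1 : 1 ≤ t) (h2 : t ≤ n) :
    (Finset.univ.filter (fun m : n.Partition => t ∈ m.parts)).card = pn (n - t) := by
  rw [← Fintype.card_subtype, pn]
  exact Fintype.card_congr (Nat.Partition.partitionWithPartEquiv h1 h2)

lemma zi_PP (n t s : ℕ) (h1 : 1 ≤ t) (h2 : t < s) (h3 : t + s ≤ n) :
    (Finset.univ.filter (fun m : n.Partition => t ∈ m.parts ∧ s ∈ m.parts)).card ≤
      pn (n - t - s) := by
  rw [← zi_P (n - t) s (by omega) (by omega), ← Fintype.card_subtype, ← Fintype.card_subtype]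
  have ht : t ≤ n := by omega
  refine Fintype.card_le_of_injective
    (fun m : {m : n.Partition // t ∈ m.parts ∧ s ∈ m.parts} =>
      (⟨Nat.Partition.partitionWithPartEquiv h1 ht ⟨m.1, m.2.1⟩, ?_⟩ :
        {q : (n - t).Partition // s ∈ q.parts})) ?_
  · rw [Nat.Partition.partitionWithPartEquiv_apply_parts]
    exact (Multiset.mem_erase_of_ne (by omega)).2 m.2.2
  · intro a b hab
    have h4 := congrArg Subtype.val hab
    have h5 := (Nat.Partition.partitionWithPartEquiv h1 ht).injective h4
    apply Subtype.ext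
    exact Subtype.mk.inj h5

/-- number of partitions with largest part `t` -/
lemma zi_T (n t : ℕ) (h1 : 1 ≤ t) (h2 : t ≤ n) :
    pn (n - t) ≤ (Finset.univ.filter (fun m : n.Partition => row m 0 = t)).card +
      ∑ s ∈ (Finset.Ioc t n).filter (fun s => t + s ≤ n), pn (n - t - s) := by
  have hsub : Finset.univ.filter (fun m : n.Partition => t ∈ m.parts) ⊆
      Finset.univ.filter (fun m : n.Partition => row m 0 = t) ∪
        ((Finset.Ioc t n).filter (fun s => t + s ≤ n)).biUnion (fun s =>
          Finset.univ.filter (fun m : n.Partition => t ∈ m.parts ∧ s ∈ m.parts)) := by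
    intro m hm
    rw [Finset.mem_filter] at hm
    obtain ⟨hr, hle⟩ := zi_row m t hm.2
    rw [Finset.mem_union, Finset.mem_filter, Finset.mem_biUnion]
    by_cases he : row m 0 = t
    · exact Or.inl ⟨Finset.mem_univ _, he⟩
    · right
      refine ⟨row m 0, ?_, ?_⟩
      · rw [Finset.mem_filter, Finset.mem_Ioc]
        exact ⟨⟨lt_of_le_of_ne hle (Ne.symm he), zi_le m _ hr⟩, zi_two m _ _ he hr hm.2⟩
      · rw [Finset.mem_filter]
        exact ⟨Finset.mem_univ _, hm.2, hr⟩
  calc pn (n - t) = (Finset.univ.filter (fun m : n.Partition => t ∈ m.parts)).card :=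
        (zi_P n t h1 h2).symm
    _ ≤ _ := Finset.card_le_card hsub
    _ ≤ _ := Finset.card_union_le _ _
    _ ≤ _ := by
      apply Nat.add_le_add_left
      refine Finset.card_biUnion_le.trans (Finset.sum_le_sum fun s hs => ?_)
      rw [Finset.mem_filter, Finset.mem_Ioc] at hs
      exact zi_PP n t s h1 hs.1.1 hs.2

lemma zi_count (n : ℕ) (W : Finset ℕ) :
    ∑ t ∈ W, (Finset.univ.filter (fun m : n.Partition => row m 0 = t)).card * cn t n ≤
      (Finset.univ.filter (fun q : n.Partition × n.Partition => IsCore (row q.2 0) q.1)).card := by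
  have h1 : ∀ t ∈ W, (Finset.univ.filter (fun m : n.Partition => row m 0 = t)).card * cn t n =
      ((Finset.univ.filter (fun l : n.Partition => IsCore t l)) ×ˢ
        (Finset.univ.filter (fun m : n.Partition => row m 0 = t))).card := by
    intro t _
    rw [Finset.card_product, cn, mul_comm]
  rw [Finset.sum_congr rfl h1, ← Finset.card_biUnion]
  · apply Finset.card_le_card
    intro q hq
    rw [Finset.mem_biUnion] at hq
    obtain ⟨t, -, hq⟩ := hq
    rw [Finset.mem_product, Finset.mem_filter, Finset.mem_filter] at hq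
    rw [Finset.mem_filter]
    refine ⟨Finset.mem_univ _, ?_⟩
    rw [hq.2.2]
    exact hq.1.2
  · intro s _ t _ hst
    rw [Function.onFun, Finset.disjoint_left]
    intro q hq hq'
    rw [Finset.mem_product, Finset.mem_filter, Finset.mem_filter] at hq hq'
    exact hst (hq.2.2.symm.trans hq'.2.2)

theorem st_ZI : ST_ZI := by
  intro n W _ hW
  have hp : (0 : ℝ) < pn n := by
    have : 0 < Fintype.card n.Partition := Fintype.card_pos
    exact_mod_cast this
  have h1 : ∀ t ∈ W, ((pn (n - t) : ℝ) / pn n -
      ∑ s ∈ (Finset.Ioc t n).filter (fun s => t + s ≤ n), (pn (n - t - s) : ℝ) / pn n) *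
        ((cn t n : ℝ) / pn n) ≤
      (((Finset.univ.filter (fun m : n.Partition => row m 0 = t)).card * cn t n : ℕ) : ℝ) /
        (pn n : ℝ) ^ 2 := by
    intro t ht
    have h2 := zi_T n t (hW t ht).1 (hW t ht).2
    have h3 : (pn (n - t) : ℝ) ≤
        ((Finset.univ.filter (fun m : n.Partition => row m 0 = t)).card : ℝ) +
        ∑ s ∈ (Finset.Ioc t n).filter (fun s => t + s ≤ n), (pn (n - t - s) : ℝ) := by
      exact_mod_cast h2
    rw [← Finset.sum_div, ← sub_div]
    have h4 : ((pn (n - t) : ℝ) -
        ∑ s ∈ (Finset.Ioc t n).filter (fun s => t + s ≤ n), (pn (n - t - s) : ℝ)) / pn n ≤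
        ((Finset.univ.filter (fun m : n.Partition => row m 0 = t)).card : ℝ) / pn n :=
      div_le_div_of_nonneg_right (by linarith) hp.le
    calc _ ≤ ((Finset.univ.filter (fun m : n.Partition => row m 0 = t)).card : ℝ) / pn n *
          ((cn t n : ℝ) / pn n) := mul_le_mul_of_nonneg_right h4 (by positivity)
      _ = _ := by
        push_cast
        field_simp
  calc _ ≤ ∑ t ∈ W, (((Finset.univ.filter (fun m : n.Partition => row m 0 = t)).card *
        cn t n : ℕ) : ℝ) / (pn n : ℝ) ^ 2 := Finset.sum_le_sum h1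
    _ = ((∑ t ∈ W, (Finset.univ.filter (fun m : n.Partition => row m 0 = t)).card *
        cn t n : ℕ) : ℝ) / (pn n : ℝ) ^ 2 := by
      rw [← Finset.sum_div]
      push_cast
      rfl
    _ ≤ zI n := by
      unfold zI
      apply div_le_div_of_nonneg_right _ (by positivity)
      exact_mod_cast zi_count n W

end Pool.Agent.Helper79.ZC
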