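import Pool.Agent.Helper58.ZC.ZI

/-!
ZII: union bound for the zeros of type II.
-/

set_option autoImplicit false

namespace Pool.Agent.Helper79.ZC

open scoped Classical

lemma zii_nonempty (n : ℕ) (hn : 1 ≤ n) (m : n.Partition) : ∃ t, t ∈ m.parts := by
  by_contra h
  push Not at h
  have h1 : m.parts = 0 := Multiset.eq_zero_of_forall_notMem h
  have h2 := m.parts_sum
  rw [h1, Multiset.sum_zero] at h2
  omega

lemma zii_count (n : ℕ) :
    (Finset.univ.filter (fun q : n.Partition × n.Partition =>
      ∃ t ∈ q.2.parts, IsCore t q.1)).card ≤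
    ∑ t ∈ Finset.Icc 1 n, pn (n - t) * cn t n := by
  have hsub : Finset.univ.filter (fun q : n.Partition × n.Partition =>
      ∃ t ∈ q.2.parts, IsCore t q.1) ⊆
      (Finset.Icc 1 n).biUnion (fun t => (Finset.univ.filter (fun l : n.Partition => IsCore t l)) ×ˢ
        (Finset.univ.filter (fun m : n.Partition => t ∈ m.parts))) := by
    intro q hq
    rw [Finset.mem_filter] at hq
    obtain ⟨-, t, ht, hc⟩ := hq
    rw [Finset.mem_biUnion]
    refine ⟨t, ?_, ?_⟩
    · rw [Finset.mem_Icc]
      exact ⟨q.2.parts_pos ht, zi_le q.2 t ht⟩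
    · rw [Finset.mem_product, Finset.mem_filter, Finset.mem_filter]
      exact ⟨⟨Finset.mem_univ _, hc⟩, ⟨Finset.mem_univ _, ht⟩⟩
  refine (Finset.card_le_card hsub).trans (Finset.card_biUnion_le.trans ?_)
  apply Finset.sum_le_sum
  intro t ht
  rw [Finset.mem_Icc] at ht
  rw [Finset.card_product, zi_P n t ht.1 ht.2, cn, mul_comm]

theorem st_ZII : ST_ZII := by
  intro n hn
  have hp : (0 : ℝ) < pn n := by
    have : 0 < Fintype.card n.Partition := Fintype.card_pos
    exact_mod_cast this
  constructor
  · unfold zI zII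
    apply div_le_div_of_nonneg_right _ (by positivity)
    have : (Finset.univ.filter (fun q : n.Partition × n.Partition =>
        IsCore (row q.2 0) q.1)).card ≤ (Finset.univ.filter (fun q : n.Partition × n.Partition =>
        ∃ t ∈ q.2.parts, IsCore t q.1)).card := by
      apply Finset.card_le_card
      intro q hq
      rw [Finset.mem_filter] at hq ⊢
      obtain ⟨t, ht⟩ := zii_nonempty n hn q.2
      exact ⟨Finset.mem_univ _, row q.2 0, (zi_row q.2 t ht).1, hq.2⟩
    exact_mod_cast this
  · have h1 : ∑ t ∈ Finset.Icc 1 n, ((pn (n - t) : ℝ) / pn n) * ((cn t n : ℝ) / pn n) =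
        ((∑ t ∈ Finset.Icc 1 n, pn (n - t) * cn t n : ℕ) : ℝ) / (pn n : ℝ) ^ 2 := by
      push_cast
      rw [Finset.sum_div]
      apply Finset.sum_congr rfl
      intro t _
      field_simp
    rw [h1]
    unfold zII
    apply div_le_div_of_nonneg_right _ (by positivity)
    exact_mod_cast zii_count n

end Pool.Agent.Helper79.ZC
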